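import Pool.Agent.W401.FL.Defs

/-!
# FL-INT: integrality, a transcendental element of large norm, traces of powers
-/

set_option autoImplicit false

namespace Pool.Agent.W439.FL

open Polynomial Matrix

section Eig

variable {K : Type*} [Field K] [IsAlgClosed K] {n : ℕ}

theorem charpoly_eq (A : Matrix (Fin n) (Fin n) K) :
    A.charpoly = (A.charpoly.roots.map fun l => X - C l).prod :=
  (IsAlgClosed.splits A.charpoly).eq_prod_roots_of_monic A.charpoly_monic

theorem card_roots (A : Matrix (Fin n) (Fin n) K) : A.charpoly.roots.card = n := by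
  have h := (IsAlgClosed.splits A.charpoly).natDegree_eq_card_roots
  rw [← h]
  simp [Matrix.charpoly_natDegree_eq_dim]

theorem det_scalar_sub (A : Matrix (Fin n) (Fin n) K) (c : K) :
    (algebraMap K (Matrix (Fin n) (Fin n) K) c - A).det =
      (A.charpoly.roots.map fun l => c - l).prod := by
  have h : A.charpoly.eval c = (algebraMap K (Matrix (Fin n) (Fin n) K) c - A).det := by
    rw [Matrix.eval_charpoly]
    rfl
  rw [← h]
  conv_lhs => rw [charpoly_eq A]
  rw [Polynomial.eval_multiset_prod, Multiset.map_map]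
  congr 1
  refine Multiset.map_congr rfl fun l _ => ?_
  simp

theorem det_sub_scalar (A : Matrix (Fin n) (Fin n) K) (c : K) :
    (A - algebraMap K (Matrix (Fin n) (Fin n) K) c).det =
      (A.charpoly.roots.map fun l => l - c).prod := by
  have h : A - algebraMap K (Matrix (Fin n) (Fin n) K) c =
      -(algebraMap K (Matrix (Fin n) (Fin n) K) c - A) := by abel
  rw [h, Matrix.det_neg, det_scalar_sub]
  have h2 : (A.charpoly.roots.map fun l => l - c) = A.charpoly.roots.map fun l => (-1) * (c - l) :=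
    Multiset.map_congr rfl fun l _ => by ring
  rw [h2, Multiset.prod_map_mul, Multiset.map_const', Multiset.prod_replicate, card_roots]
  simp

theorem det_aeval (A : Matrix (Fin n) (Fin n) K) (s : Multiset K) :
    (aeval A (s.map fun d => X - C d).prod).det =
      (A.charpoly.roots.map fun l => ((s.map fun d => X - C d).prod).eval l).prod := by
  induction s using Multiset.induction_on with
  | empty => simp
  | cons d s ih =>
    rw [Multiset.map_cons, Multiset.prod_cons, map_mul, Matrix.det_mul, ih]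
    have h : aeval A (X - C d) = A - algebraMap K (Matrix (Fin n) (Fin n) K) d := by simp
    rw [h, det_sub_scalar, ← Multiset.prod_map_mul]
    congr 1
    refine Multiset.map_congr rfl fun l _ => ?_
    simp

theorem charpoly_pow (A : Matrix (Fin n) (Fin n) K) {m : ℕ} (hm : m ≠ 0) :
    (A ^ m).charpoly = (A.charpoly.roots.map fun l => X - C (l ^ m)).prod := by
  have : Infinite K := IsAlgClosed.instInfinite
  refine Polynomial.funext fun c => ?_
  have hq : (X ^ m - C c : K[X]).Monic := monic_X_pow_sub_C c hm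
  have hq2 : (X ^ m - C c : K[X]) = ((X ^ m - C c : K[X]).roots.map fun d => X - C d).prod :=
    (IsAlgClosed.splits _).eq_prod_roots_of_monic hq
  have h1 := det_aeval A (X ^ m - C c : K[X]).roots
  rw [← hq2] at h1
  have h2 : (A ^ m).charpoly.eval c =
      (algebraMap K (Matrix (Fin n) (Fin n) K) c - A ^ m).det := by
    rw [Matrix.eval_charpoly]
    rfl
  have h3 : algebraMap K (Matrix (Fin n) (Fin n) K) c - A ^ m = -(aeval A (X ^ m - C c)) := by
    simp
  rw [h2, h3, Matrix.det_neg, h1, Polynomial.eval_multiset_prod, Multiset.map_map]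
  have h4 : (A.charpoly.roots.map (eval c ∘ fun l => X - C (l ^ m))) =
      A.charpoly.roots.map fun l => (-1) * (l ^ m - c) :=
    Multiset.map_congr rfl fun l _ => by simp
  rw [h4, Multiset.prod_map_mul, Multiset.map_const', Multiset.prod_replicate, card_roots]
  simp

theorem trace_pow (A : Matrix (Fin n) (Fin n) K) (m : ℕ) :
    (A ^ m).trace = (A.charpoly.roots.map fun l => l ^ m).sum := by
  rcases eq_or_ne m 0 with rfl | hm
  · simp [card_roots]
  · rw [Matrix.trace_eq_sum_roots_charpoly, charpoly_pow A hm]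
    congr 1
    have : (A.charpoly.roots.map fun l => X - C (l ^ m)) =
        (A.charpoly.roots.map fun l => l ^ m).map fun l => X - C l := by
      rw [Multiset.map_map]
      rfl
    rw [this, Polynomial.roots_multiset_prod_X_sub_C]

omit [IsAlgClosed K] in
theorem multiset_eq [CharZero K] (s t : Multiset K)
    (h : ∀ m : ℕ, (s.map fun l => l ^ m).sum = (t.map fun l => l ^ m).sum) : s = t := by
  classical
  have key : ∀ q : K[X], (s.map fun l => q.eval l).sum = (t.map fun l => q.eval l).sum := by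
    intro q
    induction q using Polynomial.induction_on' with
    | add p q hp hq =>
      simp only [eval_add, Multiset.sum_map_add, hp, hq]
    | monomial m a =>
      simp only [eval_monomial, Multiset.sum_map_mul_left, h]
  ext x
  set q : K[X] := ((s.toFinset ∪ t.toFinset).erase x).prod fun y => X - C y with hq
  have hz : ∀ y, y ≠ x → (y ∈ s ∨ y ∈ t) → q.eval y = 0 := by
    intro y hyx hy
    rw [hq, eval_prod]
    refine Finset.prod_eq_zero (i := y) ?_ (by simp)
    simp only [Finset.mem_erase, Finset.mem_union, Multiset.mem_toFinset]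
    exact ⟨hyx, hy⟩
  have hx : q.eval x ≠ 0 := by
    rw [hq, eval_prod, Finset.prod_ne_zero_iff]
    intro y hy
    rw [Finset.mem_erase] at hy
    simpa [sub_eq_zero] using hy.1.symm
  have h1 := key q
  rw [Multiset.sum_map_eq_nsmul_single x (fun y hy hys => hz y hy (Or.inl hys)),
    Multiset.sum_map_eq_nsmul_single x (fun y hy hyt => hz y hy (Or.inr hyt)), nsmul_eq_mul,
    nsmul_eq_mul] at h1
  exact_mod_cast mul_right_cancel₀ hx h1

end Eig

theorem part3 (k : Type) [Field k] [CharZero k] (n : ℕ) (A B : Matrix (Fin n) (Fin n) k)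
    (h : ∀ m : ℕ, (A ^ m).trace = (B ^ m).trace) : A.charpoly = B.charpoly := by
  set f := algebraMap k (AlgebraicClosure k) with hf
  apply Polynomial.map_injective f f.injective
  rw [← Matrix.charpoly_map, ← Matrix.charpoly_map]
  have : CharZero (AlgebraicClosure k) := AlgebraicClosure.instCharZero k
  rw [charpoly_eq (A.map f), charpoly_eq (B.map f)]
  congr 2
  apply multiset_eq
  intro m
  rw [← trace_pow, ← trace_pow]
  have hmap : ∀ C : Matrix (Fin n) (Fin n) k, ((C.map f) ^ m).trace = f ((C ^ m).trace) := by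
    intro C
    have : (C.map f) ^ m = (C ^ m).map f := by
      have := map_pow f.mapMatrix C m
      simpa [RingHom.mapMatrix_apply] using this.symm
    rw [this]
    simp [Matrix.trace, map_sum]
  rw [hmap, hmap, h]

theorem part2 (p : ℕ) [Fact p.Prime] : ∃ t : PadicAlgCl p, Transcendental ℚ t ∧ 1 < ‖t‖ := by
  have h1 : ∃ t0 : ℚ_[p], Transcendental ℚ t0 := by
    by_contra hcon
    have hc : Set.Countable {x : ℚ_[p] | IsAlgebraic ℚ x} := Algebraic.countable ℚ ℚ_[p]
    have hall : {x : ℚ_[p] | IsAlgebraic ℚ x} = Set.univ := by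
      ext x
      simp only [Set.mem_ofPred_eq, Set.mem_univ, iff_true]
      by_contra hx
      exact hcon ⟨x, hx⟩
    rw [hall, Set.countable_univ_iff] at hc
    have h2 := continuum_le_cardinal_of_nontriviallyNormedField ℚ_[p]
    have h3 : Cardinal.mk ℚ_[p] ≤ Cardinal.aleph0 := Cardinal.mk_le_aleph0_iff.mpr hc
    exact absurd (h2.trans h3) (not_le.mpr Cardinal.aleph0_lt_continuum)
  obtain ⟨t0, ht0⟩ := h1
  have ht0' : t0 ≠ 0 := by
    rintro rfl
    exact ht0 isAlgebraic_zero
  have hp : 1 < (p : ℝ) := by exact_mod_cast (Fact.out : p.Prime).one_lt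
  obtain ⟨k, hk⟩ := pow_unbounded_of_one_lt (‖t0‖⁻¹) hp
  have hpne : (p : ℚ_[p]) ≠ 0 := by exact_mod_cast (Fact.out : p.Prime).ne_zero
  refine ⟨algebraMap ℚ_[p] (PadicAlgCl p) (t0 * ((p : ℚ_[p]) ^ k)⁻¹), ?_, ?_⟩
  · intro halg
    have h5 : IsAlgebraic ℚ (t0 * ((p : ℚ_[p]) ^ k)⁻¹) :=
      (isAlgebraic_algebraMap_iff (algebraMap ℚ_[p] (PadicAlgCl p)).injective).mp halg
    apply ht0
    have h6 : t0 = (t0 * ((p : ℚ_[p]) ^ k)⁻¹) * ((p : ℚ_[p]) ^ k) := by
      rw [mul_assoc, inv_mul_cancel₀ (pow_ne_zero _ hpne), mul_one]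
    rw [h6]
    exact h5.mul ((isAlgebraic_natCast p).pow k)
  · have h7 : ‖(algebraMap ℚ_[p] (PadicAlgCl p) (t0 * ((p : ℚ_[p]) ^ k)⁻¹))‖ =
        ‖t0 * ((p : ℚ_[p]) ^ k)⁻¹‖ := PadicAlgCl.norm_extends p _
    rw [h7, norm_mul, norm_inv, norm_pow, Padic.norm_p, inv_pow, inv_inv]
    have h8 : 0 < ‖t0‖ := norm_pos_iff.mpr ht0'
    calc (1 : ℝ) = ‖t0‖ * ‖t0‖⁻¹ := (mul_inv_cancel₀ h8.ne').symm
      _ < ‖t0‖ * (p : ℝ) ^ k := by gcongr

theorem coeff_prod_le (p : ℕ) [Fact p.Prime] (s : Multiset (PadicAlgCl p))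
    (hs : ∀ l ∈ s, ‖l‖ ≤ 1) (i : ℕ) : ‖((s.map fun l => X - C l).prod).coeff i‖ ≤ 1 := by
  induction s using Multiset.induction_on generalizing i with
  | empty =>
    simp only [Multiset.map_zero, Multiset.prod_zero, coeff_one]
    split_ifs <;> simp
  | cons l s ih =>
    have ih' := ih fun x hx => hs x (Multiset.mem_cons_of_mem hx)
    rw [Multiset.map_cons, Multiset.prod_cons, sub_mul, coeff_sub, coeff_C_mul]
    have hl : ‖l‖ ≤ 1 := hs l (Multiset.mem_cons_self l s)
    have h1 : ‖l * ((s.map fun l => X - C l).prod).coeff i‖ ≤ 1 := by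
      rw [norm_mul]
      exact mul_le_one₀ hl (norm_nonneg _) (ih' i)
    have h2 : ‖(X * (s.map fun l => X - C l).prod).coeff i‖ ≤ 1 := by
      rcases i with _ | i
      · simp
      · rw [coeff_X_mul]
        exact ih' i
    rw [sub_eq_add_neg]
    refine (IsUltrametricDist.norm_add_le_max _ _).trans (max_le h2 ?_)
    rwa [norm_neg]

theorem eig_le (p : ℕ) [Fact p.Prime] (n : ℕ) (A : Matrix (Fin n) (Fin n) (PadicAlgCl p)) (R : ℝ)
    (hR : ∀ m i j, ‖(A ^ m) i j‖ ≤ R) (x : PadicAlgCl p) (hx : x ∈ A.charpoly.roots) :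
    ‖x‖ ≤ 1 := by
  have h0 : (algebraMap (PadicAlgCl p) (Matrix (Fin n) (Fin n) (PadicAlgCl p)) x - A).det = 0 := by
    rw [det_scalar_sub]
    refine Multiset.prod_eq_zero (Multiset.mem_map.mpr ⟨x, hx, sub_self x⟩)
  obtain ⟨v, hv, hv2⟩ := Matrix.exists_mulVec_eq_zero_iff.mpr h0
  have hAv : A *ᵥ v = x • v := by
    rw [Matrix.sub_mulVec, sub_eq_zero] at hv2
    rw [← hv2, Matrix.algebraMap_eq_diagonal]
    ext i
    simp [Matrix.mulVec_diagonal]
  have hpow : ∀ m : ℕ, (A ^ m) *ᵥ v = x ^ m • v := by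
    intro m
    induction m with
    | zero => simp
    | succ m ih =>
      rw [pow_succ, ← Matrix.mulVec_mulVec, hAv, Matrix.mulVec_smul, ih, smul_smul, pow_succ,
        mul_comm]
  obtain ⟨i0, hi0⟩ := Function.ne_iff.mp hv
  obtain ⟨i, -, hi⟩ := Finset.exists_max_image Finset.univ (fun j => ‖v j‖) ⟨i0, Finset.mem_univ _⟩
  have hvi : 0 < ‖v i‖ := lt_of_lt_of_le (norm_pos_iff.mpr hi0) (hi i0 (Finset.mem_univ _))
  by_contra hlt
  rw [not_le] at hlt
  have hb : ∀ m : ℕ, ‖x‖ ^ m ≤ n * R := by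
    intro m
    have h1 : x ^ m * v i = ∑ j, (A ^ m) i j * v j := by
      have := congrFun (hpow m) i
      simp only [Pi.smul_apply, smul_eq_mul] at this
      rw [← this]
      rfl
    have h2 : ‖x‖ ^ m * ‖v i‖ ≤ n * R * ‖v i‖ := by
      rw [← norm_pow, ← norm_mul, h1]
      refine (norm_sum_le _ _).trans ?_
      calc ∑ j, ‖(A ^ m) i j * v j‖ ≤ ∑ _j : Fin n, R * ‖v i‖ := by
            refine Finset.sum_le_sum fun j _ => ?_
            rw [norm_mul]
            exact mul_le_mul (hR m i j) (hi j (Finset.mem_univ _)) (norm_nonneg _)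
              ((norm_nonneg _).trans (hR m i j))
        _ = n * R * ‖v i‖ := by simp [mul_assoc]
    exact le_of_mul_le_mul_right h2 hvi
  obtain ⟨m, hm⟩ := pow_unbounded_of_one_lt (n * R) hlt
  exact absurd (hb m) (not_le.mpr hm)

theorem part1 (p : ℕ) [Fact p.Prime] (G : Type) [Group G] [TopologicalSpace G]
    [IsTopologicalGroup G] [CompactSpace G] (n : ℕ) (ρ : G →* GL (Fin n) (PadicAlgCl p))
    (hρ : Continuous ρ) (g : G) (i : ℕ) :
    ‖((ρ g : Matrix (Fin n) (Fin n) (PadicAlgCl p)).charpoly).coeff i‖ ≤ 1 := by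
  have hb : ∃ R : ℝ, ∀ h : G, ∀ i j, ‖(ρ h : Matrix (Fin n) (Fin n) (PadicAlgCl p)) i j‖ ≤ R := by
    have hc : ∀ ij : Fin n × Fin n, ∃ R : ℝ, ∀ h : G,
        ‖(ρ h : Matrix (Fin n) (Fin n) (PadicAlgCl p)) ij.1 ij.2‖ ≤ R := by
      intro ij
      have hcont : Continuous fun h : G =>
          (ρ h : Matrix (Fin n) (Fin n) (PadicAlgCl p)) ij.1 ij.2 :=
        (Units.continuous_val.comp hρ).matrix_elem ij.1 ij.2
      obtain ⟨R, hR⟩ := (isCompact_univ (X := G)).exists_bound_of_continuousOn hcont.continuousOn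
      exact ⟨R, fun h => hR h (Set.mem_univ _)⟩
    choose R hR using hc
    refine ⟨∑ ij, |R ij|, fun h i j => ?_⟩
    refine ((hR (i, j) h).trans (le_abs_self _)).trans ?_
    exact Finset.single_le_sum (f := fun ij => |R ij|) (fun _ _ => abs_nonneg _)
      (Finset.mem_univ (i, j))
  obtain ⟨R, hR⟩ := hb
  rw [charpoly_eq]
  refine coeff_prod_le p _ (fun l hl => ?_) i
  refine eig_le p n _ R (fun m i j => ?_) l hl
  have := hR (g ^ m) i j
  rwa [map_pow, Units.val_pow_eq_pow_val] at this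

theorem main : Pool.Agent.W401.FL.TaskInt :=
  ⟨fun p _ G _ _ _ _ n ρ hρ g i => part1 p G n ρ hρ g i, fun p _ => part2 p,
    fun k _ _ n A B h => part3 k n A B h⟩

end Pool.Agent.W439.FL
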